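import Pool.Agent.helper46.T6L.SpecO

set_option autoImplicit false

/-!
# T6L: row ODC, the decomposition of the ideal of `θ`
-/

namespace Pool.Agent.T6L

open Finset NumberField Pool.Agent.helper3.FT Pool.Agent.helper47.RA Pool.Agent.T5
open Pool.Agent.helper26.T5 (nn LEMB LPR LAW LP LPA HLN HPR HSQ HID HCL HGA)
open Pool.Agent.helper28.LT (rad)
open Pool.Agent.helper28.LT (FA_split)

theorem ODC_ff (f b g : ℕ) (hgf : Nat.Coprime g f) : ff f (b * g) = ff f b := by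
  unfold ff
  have h1 : rad f ∣ f := Nat.prod_primeFactors_dvd f
  have h2 : Nat.Coprime g (rad f) := Nat.Coprime.coprime_dvd_right h1 hgf
  have h3 : Nat.Coprime g ((f * rad f) ^ 2) := (Nat.Coprime.mul_right hgf h2).pow_right 2
  exact Nat.Coprime.gcd_mul_right_cancel b h3

theorem ODC_cop (f b g : ℕ) (hgf : Nat.Coprime g f) (hbf : ∀ p : ℕ, p.Prime → p ∣ b → p ∣ f) :
    Nat.Coprime g b := by
  refine Nat.coprime_of_dvd fun p hp h1 h2 => ?_
  have h3 := Nat.dvd_gcd h1 (hbf p hp h2)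
  rw [hgf] at h3
  exact hp.one_lt.ne' (Nat.dvd_one.1 h3)

theorem ODC (hHID : HID) (hOCO : OCO_stmt) (hOLM : OLM_stmt) (hOPM : OPM_stmt) : ODC_stmt := by
  intro K _ _ Q f t α γ u v θ θ' z hD hT hf hZ hl hE hz
  obtain ⟨b, g, hb, hg, hbg, hgf, hbf⟩ := FA_split f t.2.2.2 hZ
  obtain ⟨a₀, A₁, ha0, haP, haN, hAN, haA⟩ := hHID K Q f t α γ u v θ θ' hD hT hf hZ hl hE b g
    hb hg hbg hgf hbf
  have hzb : z = b * g := by
    rw [hz] at hbg
    exact_mod_cast hbg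
  have hdvd : A₁ ∣ Ideal.span {θ} := ⟨a₀ ^ 5, by rw [haA, mul_comm]⟩
  obtain ⟨B, A, hB0, hBP, hAB, hBN, hAN'⟩ := hOLM K Q f b A₁ hf hb hbf hAN (fun p hp h =>
    hOCO K Q f t α γ u v θ θ' hD hT hf hZ hl hE p hp (h.trans hdvd))
  have hff : ff f z = ff f b := by
    rw [hzb]
    exact ODC_ff f b g hgf
  have hcop : Nat.Coprime (Ideal.absNorm a₀) (Ideal.absNorm B) := by
    rw [haN]
    exact Nat.Coprime.coprime_dvd_right ⟨_, hBN.symm⟩ (ODC_cop f b g hgf hbf)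
  refine ⟨a₀ * B, A, ?_, hOPM K a₀ B ha0 hB0 haP hBP hcop, ?_, ?_, ?_⟩
  · intro h
    rcases mul_eq_zero.1 (show a₀ * B = 0 from h) with h1 | h1
    · exact ha0 h1
    · exact hB0 h1
  · rw [map_mul, haN, hff, mul_assoc, hBN, hzb, mul_comm]
  · rw [hff]
    exact hAN'
  · rw [haA, hAB, mul_pow, mul_assoc]

end Pool.Agent.T6L
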